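import Pool.Agent.H93.EN.Targets4

/-!
# Bright corners, module AG: two charts at the same point give the same extension
-/

namespace Pool.Agent.H93.EN

open MeasureTheory Set Metric Filter Topology Pool.Agent.H93.BL
open scoped ContDiff

lemma sg_add_AG {ι : Type} (P : Polygon ι) (j : ι) (z v : ℂ) :
    sg P j (z + v) = sg P j z + cr (P.u j) v := by
  unfold sg
  rw [show z + v - P.p j = (z - P.p j) + v by ring, cr_add_right]

/-- equality of the reflections in two sides which are indistinguishable from `x` -/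
lemma same_line_AG {ι : Type} (P : Polygon ι) (x : ℂ) (R : ℝ) (j j' : ι)
    (hR : 0 < R) (hc : Chart P x R (some j)) (hc' : Chart P x R (some j'))
    (hx : 0 < sg P j x)
    (hiff : ∀ y ∈ ball x R, 0 < sg P j y ↔ 0 < sg P j' y)
    (z : ℂ) (hz : z ∈ ball x R) (hzs : ¬ 0 < sg P j z) :
    (∀ y, P.aff j y = P.aff j' y) ∧ (∀ w, P.refl j w = P.refl j' w) := by
  have hx' : 0 < sg P j' x := (hiff x (mem_ball_self hR)).1 hx
  have hzs' : sg P j z ≤ 0 := not_lt.1 hzs
  -- the zero on the segment
  have hden : 0 < sg P j x - sg P j z := by linarith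
  set t : ℝ := sg P j x / (sg P j x - sg P j z) with ht
  have ht0 : 0 < t := div_pos hx hden
  have ht1 : t ≤ 1 := (div_le_one hden).2 (by linarith)
  have hcz : cr (P.u j) (z - x) = sg P j z - sg P j x := by
    have := sg_add_AG P j x (z - x)
    rw [show x + (z - x) = z by ring] at this
    linarith
  have hsg : ∀ s : ℝ, sg P j (x + (s : ℂ) * (z - x)) = sg P j x - s * (sg P j x - sg P j z) := by
    intro s
    rw [sg_add_AG, cr_smul_right, hcz]; ring
  have hball : ∀ s : ℝ, 0 ≤ s → s ≤ 1 → x + (s : ℂ) * (z - x) ∈ ball x R := by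
    intro s h0 h1
    rw [mem_ball, dist_eq_norm, add_sub_cancel_left, norm_mul, Complex.norm_real,
      Real.norm_of_nonneg h0]
    rw [mem_ball, dist_eq_norm] at hz
    calc s * ‖z - x‖ ≤ 1 * ‖z - x‖ := by
          exact mul_le_mul_of_nonneg_right h1 (norm_nonneg _)
      _ = ‖z - x‖ := one_mul _
      _ < R := hz
  set z₀ : ℂ := x + (t : ℂ) * (z - x) with hz₀
  have hz₀b : z₀ ∈ ball x R := hball t ht0.le ht1
  have hz₀s : sg P j z₀ = 0 := by
    rw [hz₀, hsg, ht, div_mul_cancel₀ _ hden.ne', sub_self]
  -- the other function vanishes too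
  have hz₀s' : sg P j' z₀ = 0 := by
    refine le_antisymm (not_lt.1 fun h => ?_) ?_
    · have := (hiff z₀ hz₀b).2 h
      rw [hz₀s] at this
      exact lt_irrefl _ this
    · by_contra hneg
      push Not at hneg
      -- value at `s < t` is positive, but it is affine
      set c' : ℝ := cr (P.u j') (z - x) with hc'def
      have hsg' : ∀ s : ℝ, sg P j' (x + (s : ℂ) * (z - x)) = sg P j' x + s * c' := by
        intro s
        rw [sg_add_AG, cr_smul_right]
      have e1 : sg P j' x + t * c' < 0 := by rw [← hsg' t]; exact hneg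
      have hc'neg : c' < 0 := by
        by_contra hh
        push Not at hh
        nlinarith [mul_nonneg ht0.le hh]
      -- the zero of the second function
      set s : ℝ := sg P j' x / (-c') with hs
      have hs0 : 0 < s := div_pos hx' (by linarith)
      have hst : s < t := by
        rw [hs, div_lt_iff₀ (by linarith)]
        linarith
      have e2 : sg P j' (x + (s : ℂ) * (z - x)) = 0 := by
        have hcc : -c' ≠ 0 := (neg_pos.2 hc'neg).ne'
        have e0 : s * (-c') = sg P j' x := by rw [hs]; exact div_mul_cancel₀ _ hcc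
        rw [hsg']
        linarith
      have e3 : 0 < sg P j (x + (s : ℂ) * (z - x)) := by
        rw [hsg]
        have : s * (sg P j x - sg P j z) < sg P j x := by
          rwa [ht, lt_div_iff₀ hden] at hst
        linarith
      have e4 := (hiff _ (hball s hs0.le (by linarith))).1 e3
      rw [e2] at e4
      exact lt_irrefl _ e4
  -- small vectors
  have hr : 0 < R - dist z₀ x := by
    rw [mem_ball] at hz₀b; linarith
  set ε : ℝ := (R - dist z₀ x) / 2 with hε
  have hε0 : 0 < ε := by rw [hε]; linarith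
  have hsmall : ∀ v : ℂ, ‖v‖ = 1 → ((0 < cr (P.u j) v) ↔ (0 < cr (P.u j') v)) := by
    intro v hv
    have hb : z₀ + (ε : ℂ) * v ∈ ball x R := by
      rw [mem_ball]
      calc dist (z₀ + (ε : ℂ) * v) x ≤ dist (z₀ + (ε : ℂ) * v) z₀ + dist z₀ x := dist_triangle _ _ _
        _ = ε + dist z₀ x := by
          rw [dist_eq_norm, add_sub_cancel_left, norm_mul, hv, mul_one, Complex.norm_real,
            Real.norm_of_nonneg hε0.le]
        _ < R := by rw [hε]; linarith
    have := hiff _ hb
    rw [sg_add_AG P j z₀, sg_add_AG P j' z₀, hz₀s, hz₀s', zero_add, zero_add, cr_smul_right,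
      cr_smul_right, mul_pos_iff_of_pos_left hε0, mul_pos_iff_of_pos_left hε0] at this
    exact this
  have hnu : ‖P.u j‖ = 1 := P.norm_u j
  have h1 : cr (P.u j') (P.u j) ≤ 0 := by
    refine not_lt.1 fun h => ?_
    have := (hsmall _ hnu).2 h
    rw [cr_self] at this
    exact lt_irrefl _ this
  have h2 : 0 ≤ cr (P.u j') (P.u j) := by
    have : ¬ 0 < cr (P.u j') (-P.u j) := by
      intro h
      have := (hsmall (-P.u j) (by rw [norm_neg, hnu])).2 h
      rw [cr_neg_right, cr_self, neg_zero] at this
      exact lt_irrefl _ this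
    rw [cr_neg_right] at this
    linarith [not_lt.1 this]
  have h3 : cr (P.u j') (P.u j) = 0 := le_antisymm h1 h2
  have h4 : 0 < ip (P.u j') (P.u j) := by
    have e := (hsmall (Complex.I * P.u j) (by rw [norm_mul, Complex.norm_I, one_mul, hnu])).1
      (by rw [cr_I_mul, P.ip_u_u]; norm_num)
    rwa [cr_I_mul] at e
  have h5 : ip (P.u j') (P.u j) = 1 := by
    have := ip_sq_add_cr_sq (P.u j') (P.u j)
    rw [h3, P.norm_u, P.norm_u] at this
    nlinarith
  have hu : P.u j' = P.u j := by
    refine ext_ip_cr (P.u j) _ _ hnu ?_ ?_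
    · rw [h5, P.ip_u_u]
    · rw [cr_swap, h3, cr_self, neg_zero]
  have hrefl : ∀ w, P.refl j w = P.refl j' w := by
    intro w
    unfold Polygon.refl
    rw [hu]
  refine ⟨fun y => ?_, hrefl⟩
  have a1 : P.aff j z₀ = z₀ :=
    P.aff_of_mem_segment j z₀ (openSegment_subset_segment ℝ _ _ (hc.2.2 z₀ hz₀b hz₀s))
  have a2 : P.aff j' z₀ = z₀ :=
    P.aff_of_mem_segment j' z₀ (openSegment_subset_segment ℝ _ _ (hc'.2.2 z₀ hz₀b hz₀s'))
  have e : y = z₀ + (y - z₀) := by ring
  rw [e, P.aff_add j z₀, P.aff_add j' z₀, a1, a2, hrefl]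

theorem ag (h1 : T_CHT) : T_AG := by
  intro ι P F x R τ τ' hx hR hc hc'
  obtain ⟨-, -, h3, h4, -⟩ := h1 ι P
  have key : ∀ (σ : Option ι), Chart P x R σ → ∀ y ∈ ball x R, segment ℝ x y ⊆ P.Ω →
      ∀ w, Phi P F σ y w = F y w := by
    intro σ hσ y hy hs w
    cases σ with
    | none => rfl
    | some j =>
      have := (h4 x y R (some j) hx hσ hy).1 hs j rfl
      simp only [Phi]
      rw [if_pos this]
  refine Filter.Eventually.of_forall fun y hy w => ?_
  by_cases hs : segment ℝ x y ⊆ P.Ω
  · rw [key τ hc y hy hs w, key τ' hc' y hy hs w]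
  · cases τ with
    | none =>
      exact absurd ((h4 x y R none hx hc hy).2 (by intro j h; cases h)) hs
    | some j =>
      cases τ' with
      | none =>
        exact absurd ((h4 x y R none hx hc' hy).2 (by intro j h; cases h)) hs
      | some j' =>
        have i1 : ∀ y ∈ ball x R, segment ℝ x y ⊆ P.Ω ↔ 0 < sg P j y := by
          intro y hy
          rw [h4 x y R (some j) hx hc hy]
          exact ⟨fun h => h j rfl, fun h k hk => by cases hk; exact h⟩
        have i2 : ∀ y ∈ ball x R, segment ℝ x y ⊆ P.Ω ↔ 0 < sg P j' y := by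
          intro y hy
          rw [h4 x y R (some j') hx hc' hy]
          exact ⟨fun h => h j' rfl, fun h k hk => by cases hk; exact h⟩
        have n1 : ¬ 0 < sg P j y := fun h => hs ((i1 y hy).2 h)
        have n2 : ¬ 0 < sg P j' y := fun h => hs ((i2 y hy).2 h)
        obtain ⟨ha, hr⟩ := same_line_AG P x R j j' hR hc hc' (h3 x R j hx hR hc)
          (fun y hy => (i1 y hy).symm.trans (i2 y hy)) y hy n1
        simp only [Phi]
        rw [if_neg n1, if_neg n2, ha, hr]

end Pool.Agent.H93.EN
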