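import Pool.Agent.H65.EN.Targets

/-!
enx_modules, row DSM: moments of the divisor function, and Rankin's trick (helper55; the lemmas on
the moments are from helper14's H14/APR/CQ.lean).
-/

set_option autoImplicit false

namespace Pool.Agent.H55.EN

open Finset MeasureTheory
open Pool.Agent.H24.CL Pool.Agent.H24.LV Pool.Agent.H31.LV Pool.Agent.H50.LV Pool.Agent.H65.EN
open scoped Pointwise

/-- The number of divisors is submultiplicative. -/
theorem dsm_mul_le (e f : ℕ) :
    (e * f).divisors.card ≤ e.divisors.card * f.divisors.card := by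
  rw [Nat.divisors_mul]
  exact Finset.card_mul_le

/-- Moments of the divisor function with the harmonic weight. -/
noncomputable def dsmH (D j : ℕ) : ℝ := ∑ n ∈ Icc 1 D, (n.divisors.card : ℝ) ^ j / n

theorem dsmH_nonneg (D j : ℕ) : 0 ≤ dsmH D j := Finset.sum_nonneg fun _ _ => by positivity

theorem dsmH_succ (D j : ℕ) : dsmH D (j + 1) ≤ dsmH D j ^ 2 := by
  set F : ℕ × ℕ → ℝ := fun x =>
    ((x.1.divisors.card : ℝ) ^ j / x.1) * ((x.2.divisors.card : ℝ) ^ j / x.2) with hF
  have hF0 : ∀ x, 0 ≤ F x := fun x => by rw [hF]; positivity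
  have h1 : ∀ n ∈ Icc 1 D, (n.divisors.card : ℝ) ^ (j + 1) / n ≤
      ∑ x ∈ n.divisorsAntidiagonal, F x := by
    intro n hn
    have hn0 : 0 < n := (Finset.mem_Icc.1 hn).1
    have hcard : (n.divisors.card : ℝ) = ∑ _x ∈ n.divisorsAntidiagonal, (1 : ℝ) := by
      rw [Nat.sum_divisorsAntidiagonal (fun _ _ => (1 : ℝ))]
      simp
    calc (n.divisors.card : ℝ) ^ (j + 1) / n
        = ∑ _x ∈ n.divisorsAntidiagonal, (n.divisors.card : ℝ) ^ j / n := by
          rw [pow_succ]
          conv_lhs => rw [hcard]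
          rw [← hcard, Finset.sum_const, nsmul_eq_mul]
          have h2 : (n.divisorsAntidiagonal.card : ℝ) = (n.divisors.card : ℝ) := by
            rw [hcard]; simp
          rw [h2]; ring
      _ ≤ ∑ x ∈ n.divisorsAntidiagonal, F x := by
          refine Finset.sum_le_sum fun x hx => ?_
          have hx1 := (Nat.mem_divisorsAntidiagonal.1 hx).1
          have hx0 : 0 < x.1 * x.2 := by rw [hx1]; exact hn0
          have ha : (0 : ℝ) < x.1 := by exact_mod_cast Nat.pos_of_mul_pos_right hx0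
          have hb : (0 : ℝ) < x.2 := by exact_mod_cast Nat.pos_of_mul_pos_left hx0
          have hnx : (n : ℝ) = x.1 * x.2 := by rw [← hx1]; push_cast; ring
          have hd : (n.divisors.card : ℝ) ≤ x.1.divisors.card * x.2.divisors.card := by
            rw [← hx1]
            exact_mod_cast dsm_mul_le x.1 x.2
          rw [hF]
          simp only
          rw [div_mul_div_comm, ← mul_pow, hnx]
          gcongr
  have h2 : ∑ n ∈ Icc 1 D, ∑ x ∈ n.divisorsAntidiagonal, F x ≤
      ∑ x ∈ Icc 1 D ×ˢ Icc 1 D, F x := by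
    rw [← Finset.sum_biUnion]
    · refine Finset.sum_le_sum_of_subset_of_nonneg ?_ fun x _ _ => hF0 x
      intro x hx
      rw [Finset.mem_biUnion] at hx
      obtain ⟨n, hn, hx⟩ := hx
      rw [Finset.mem_Icc] at hn
      have hx1 := (Nat.mem_divisorsAntidiagonal.1 hx).1
      have hx0 : 0 < x.1 * x.2 := by omega
      have ha : 0 < x.1 := Nat.pos_of_mul_pos_right hx0
      have hb : 0 < x.2 := Nat.pos_of_mul_pos_left hx0
      have h3 : x.1 ≤ x.1 * x.2 := Nat.le_mul_of_pos_right _ hb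
      have h4 : x.2 ≤ x.1 * x.2 := Nat.le_mul_of_pos_left _ ha
      rw [Finset.mem_product, Finset.mem_Icc, Finset.mem_Icc]
      omega
    · intro n _ m _ hnm
      rw [Function.onFun, Finset.disjoint_left]
      intro x hx hx'
      exact hnm ((Nat.mem_divisorsAntidiagonal.1 hx).1.symm.trans
        (Nat.mem_divisorsAntidiagonal.1 hx').1)
  calc dsmH D (j + 1) ≤ ∑ n ∈ Icc 1 D, ∑ x ∈ n.divisorsAntidiagonal, F x :=
        Finset.sum_le_sum h1
    _ ≤ ∑ x ∈ Icc 1 D ×ˢ Icc 1 D, F x := h2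
    _ = dsmH D j ^ 2 := by
        rw [Finset.sum_product, pow_two, dsmH, Finset.sum_mul_sum]

theorem dsmH_le (D : ℕ) (j : ℕ) : dsmH D j ≤ (1 + Real.log D) ^ (2 ^ j) := by
  induction j with
  | zero =>
    rw [pow_zero, pow_one]
    have h := harmonic_le_one_add_log D
    rw [harmonic_eq_sum_Icc] at h
    push_cast at h
    unfold dsmH
    simpa using h
  | succ j ih =>
    calc dsmH D (j + 1) ≤ dsmH D j ^ 2 := dsmH_succ D j
      _ ≤ ((1 + Real.log D) ^ (2 ^ j)) ^ 2 := pow_le_pow_left₀ (dsmH_nonneg D j) ih 2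
      _ = (1 + Real.log D) ^ (2 ^ (j + 1)) := by rw [← pow_mul, ← pow_succ]

theorem pf_DSM : T_DSM := by
  intro s A Q Y hQ hY
  have hY0 : 0 < Y := by linarith
  rw [le_div_iff₀ (by positivity), Finset.sum_mul]
  calc ∑ q ∈ (Icc 1 Q).filter (fun q => Y < (tau q : ℝ)), (tau q : ℝ) ^ s / q * Y ^ A
      ≤ ∑ q ∈ (Icc 1 Q).filter (fun q => Y < (tau q : ℝ)), (tau q : ℝ) ^ (s + A) / q := by
        refine Finset.sum_le_sum fun q hq => ?_
        have h1 := (Finset.mem_filter.1 hq).2
        have h2 : Y ^ A ≤ (tau q : ℝ) ^ A := pow_le_pow_left₀ hY0.le h1.le A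
        have h3 : 0 ≤ (tau q : ℝ) ^ s / q := by positivity
        calc (tau q : ℝ) ^ s / q * Y ^ A ≤ (tau q : ℝ) ^ s / q * (tau q : ℝ) ^ A :=
              mul_le_mul_of_nonneg_left h2 h3
          _ = (tau q : ℝ) ^ (s + A) / q := by rw [pow_add]; ring
    _ ≤ ∑ q ∈ Icc 1 Q, (tau q : ℝ) ^ (s + A) / q :=
        Finset.sum_le_sum_of_subset_of_nonneg (Finset.filter_subset _ _)
          fun q _ _ => by positivity
    _ = dsmH Q (s + A) := rfl
    _ ≤ (1 + Real.log Q) ^ (2 ^ (s + A)) := dsmH_le Q (s + A)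

end Pool.Agent.H55.EN
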